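import Pool.Agent.PV3.Stmts

/-!
# Squad PV3: sets of area zero (module AN)
-/

set_option autoImplicit false

open MeasureTheory Metric Set Filter Topology

namespace PV3.H11

open PV PV3

/-- A set inside a proper affine subspace has volume zero. -/
theorem vl_zero {n : ℕ} (S : Set (E n)) (A : AffineSubspace ℝ (E n)) (hA : A ≠ ⊤)
    (h : S ⊆ A) : vl S = 0 := by
  unfold vl
  rw [measure_mono_null h (Measure.addHaar_affineSubspace volume A hA)]
  rfl

theorem an : ANStmt := by
  intro n w hw
  refine ⟨?_, ?_⟩
  · intro S w' a b hw' h1 h2 hS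
    set v : E n := w' - (inner ℝ w' w) • w with hv
    have hvw : inner ℝ w v = 0 := by
      rw [hv, inner_sub_right, inner_smul_right, real_inner_self_eq_norm_sq, hw,
        real_inner_comm]
      ring
    have hv0 : v ≠ 0 := by
      intro h0
      have h3 : w' = (inner ℝ w' w) • w := sub_eq_zero.1 h0
      have h4 : |inner ℝ w' w| = 1 := by
        have := congrArg norm h3
        rw [norm_smul, hw', hw, mul_one, Real.norm_eq_abs] at this
        exact this.symm
      rcases eq_or_eq_neg_of_abs_eq h4 with h5 | h5
      · apply h1
        rw [h3, h5, one_smul]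
      · apply h2
        rw [h3, h5, neg_smul, one_smul]
    have hvv : inner ℝ v v ≠ 0 := inner_self_ne_zero.2 hv0
    set t : ℝ := b - (inner ℝ w' w) * a with ht
    -- the hyperplane
    set A : AffineSubspace ℝ (E n) :=
      AffineSubspace.mk' ((t / inner ℝ v v) • v) (LinearMap.ker (innerₛₗ ℝ v)) with hA
    refine vl_zero _ A ?_ ?_
    · intro hT
      have h6 : A.direction = ⊤ := by rw [hT, AffineSubspace.direction_top]
      rw [hA, AffineSubspace.direction_mk'] at h6
      have h7 : v ∈ LinearMap.ker (innerₛₗ ℝ v) := h6 ▸ Submodule.mem_top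
      rw [LinearMap.mem_ker, innerₛₗ_apply_apply] at h7
      exact hvv h7
    · rintro y ⟨x, hx, s, -, rfl⟩
      obtain ⟨hx1, hx2⟩ := hS x hx
      change _ ∈ A
      rw [hA, AffineSubspace.mem_mk', LinearMap.mem_ker, innerₛₗ_apply_apply, vsub_eq_sub,
        inner_sub_right, inner_smul_right, div_mul_cancel₀ _ hvv, inner_add_right,
        inner_smul_right, real_inner_comm w v, hvw]
      have h8 : inner ℝ v (proj w x) = t := by
        unfold proj
        rw [inner_sub_right, inner_smul_right, real_inner_comm w v, hvw, hv, inner_sub_left,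
          inner_smul_left, real_inner_comm x w', hx2, real_inner_comm x w, hx1]
        simp [ht]
      rw [h8]
      ring
  · intro S hS
    rcases S.eq_empty_or_nonempty with rfl | ⟨x0, hx0⟩
    · have : Pr w (∅ : Set (E n)) = ∅ := by
        ext y
        simp [Pr]
      rw [ar, this, vl, measure_empty]
      rfl
    let f : E n →ₗ[ℝ] E n := LinearMap.id - (innerₛₗ ℝ w).smulRight w
    have hf : ∀ x, f x = proj w x := by
      intro x
      simp only [f, LinearMap.sub_apply, LinearMap.id_apply, LinearMap.smulRight_apply,
        innerₛₗ_apply_apply, proj]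
      rw [real_inner_comm]
    set D : Submodule ℝ (E n) := Submodule.map f (vectorSpan ℝ S) ⊔ Submodule.span ℝ {w} with hD
    have hdim : Module.finrank ℝ D < n := by
      refine lt_of_le_of_lt (Submodule.finrank_add_le_finrank_add_finrank _ _) ?_
      have h9 : Module.finrank ℝ (Submodule.span ℝ ({w} : Set (E n))) ≤ 1 := by
        have := finrank_span_le_card (R := ℝ) ({w} : Set (E n))
        simpa using this
      exact lt_of_le_of_lt (Nat.add_le_add (Submodule.finrank_map_le f _) h9) hS
    refine vl_zero _ (AffineSubspace.mk' (proj w x0) D) ?_ ?_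
    · intro hT
      have h6 : (AffineSubspace.mk' (proj w x0) D).direction = ⊤ := by
        rw [hT, AffineSubspace.direction_top]
      rw [AffineSubspace.direction_mk'] at h6
      rw [h6, finrank_top, finrank_euclideanSpace_fin] at hdim
      exact lt_irrefl _ hdim
    · rintro y ⟨x, hx, s, -, rfl⟩
      change _ ∈ AffineSubspace.mk' (proj w x0) D
      rw [AffineSubspace.mem_mk', vsub_eq_sub]
      have e : proj w x + s • w - proj w x0 = f (x - x0) + s • w := by
        rw [map_sub, hf, hf]
        abel
      rw [e, hD]
      refine Submodule.add_mem_sup ⟨x - x0, vsub_mem_vectorSpan ℝ hx hx0, rfl⟩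
        (Submodule.smul_mem _ _ (Submodule.mem_span_singleton_self w))

end PV3.H11
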